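import Pool.Agent.Lib.MP_d55432_al.G2.Iface

/-!
# G2: the Weyl group (module WEYL)
-/

namespace Pool.Agent.Lib.MP_d55432_al.G2.H6

open Matrix

attribute [local instance 100] LieRing.ofAssociativeRing

variable {K : Type*} [Field K]

theorem Cj.rfl' (X : M7 K) : Cj X X := ⟨1, 1, IsG.one, by rw [Matrix.one_mul, Matrix.mul_one]⟩

theorem Cj.symm' {X Y : M7 K} (h : Cj X Y) : Cj Y X := by
  obtain ⟨g, h, H, rfl⟩ := h
  refine ⟨h, g, H.symm, ?_⟩
  calc X = (h * g) * X * (h * g) := by rw [H.2.1, Matrix.one_mul, Matrix.mul_one]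
    _ = h * (g * X * h) * g := by simp only [Matrix.mul_assoc]

theorem Cj.trans' {X Y Z : M7 K} (h : Cj X Y) (h' : Cj Y Z) : Cj X Z := by
  obtain ⟨g, h, H, rfl⟩ := h
  obtain ⟨g', h', H', rfl⟩ := h'
  exact ⟨g' * g, h * h', H'.mul H, by simp only [Matrix.mul_assoc]⟩

/-- The element `(a; u; v) ↦ (-a; -v; -u)`. -/
def thM (K : Type*) [Field K] : M7 K := !![
  -1, 0, 0, 0, 0, 0, 0;
  0, 0, 0, 0, -1, 0, 0;
  0, 0, 0, 0, 0, -1, 0;
  0, 0, 0, 0, 0, 0, -1;
  0, -1, 0, 0, 0, 0, 0;
  0, 0, -1, 0, 0, 0, 0;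
  0, 0, 0, -1, 0, 0, 0]

/-- The element of `SL₃` given by minus the transposition of the first two coordinates. -/
def swM (K : Type*) [Field K] : M7 K := !![
  1, 0, 0, 0, 0, 0, 0;
  0, 0, -1, 0, 0, 0, 0;
  0, -1, 0, 0, 0, 0, 0;
  0, 0, 0, -1, 0, 0, 0;
  0, 0, 0, 0, 0, -1, 0;
  0, 0, 0, 0, -1, 0, 0;
  0, 0, 0, 0, 0, 0, -1]

/-- The element of `SL₃` given by minus the transposition of the last two coordinates. -/
def rwM (K : Type*) [Field K] : M7 K := !![
  1, 0, 0, 0, 0, 0, 0;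
  0, -1, 0, 0, 0, 0, 0;
  0, 0, 0, -1, 0, 0, 0;
  0, 0, -1, 0, 0, 0, 0;
  0, 0, 0, 0, -1, 0, 0;
  0, 0, 0, 0, 0, 0, -1;
  0, 0, 0, 0, 0, -1, 0]

theorem thM_mulVec (x : V7 K) : thM K *ᵥ x = ![-x 0, -x 4, -x 5, -x 6, -x 1, -x 2, -x 3] := by
  funext i
  fin_cases i <;> simp [thM, Matrix.mulVec, dotProduct, Fin.sum_univ_succ]

theorem swM_mulVec (x : V7 K) : swM K *ᵥ x = ![x 0, -x 2, -x 1, -x 3, -x 5, -x 4, -x 6] := by
  funext i
  fin_cases i <;> simp [swM, Matrix.mulVec, dotProduct, Fin.sum_univ_succ]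

theorem rwM_mulVec (x : V7 K) : rwM K *ᵥ x = ![x 0, -x 1, -x 3, -x 2, -x 4, -x 6, -x 5] := by
  funext i
  fin_cases i <;> simp [rwM, Matrix.mulVec, dotProduct, Fin.sum_univ_succ]

theorem thM_sq : thM K * thM K = 1 := by
  ext i j
  fin_cases i <;> fin_cases j <;> simp [thM, Matrix.mul_apply, Fin.sum_univ_succ]

theorem swM_sq : swM K * swM K = 1 := by
  ext i j
  fin_cases i <;> fin_cases j <;> simp [swM, Matrix.mul_apply, Fin.sum_univ_succ]

theorem rwM_sq : rwM K * rwM K = 1 := by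
  ext i j
  fin_cases i <;> fin_cases j <;> simp [rwM, Matrix.mul_apply, Fin.sum_univ_succ]

theorem isG_thM : IsG (thM K) (thM K) := by
  refine ⟨thM_sq, thM_sq, fun x y => ?_⟩
  rw [thM_mulVec, thM_mulVec, thM_mulVec]
  funext i
  fin_cases i <;> simp [br] <;> ring

theorem isG_swM : IsG (swM K) (swM K) := by
  refine ⟨swM_sq, swM_sq, fun x y => ?_⟩
  rw [swM_mulVec, swM_mulVec, swM_mulVec]
  funext i
  fin_cases i <;> simp [br] <;> ring

theorem isG_rwM : IsG (rwM K) (rwM K) := by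
  refine ⟨rwM_sq, rwM_sq, fun x y => ?_⟩
  rw [rwM_mulVec, rwM_mulVec, rwM_mulVec]
  funext i
  fin_cases i <;> simp [br] <;> ring

theorem thM_conj (l m : K) : thM K * TT l m * thM K = TT (-l) (-m) := by
  ext i j
  fin_cases i <;> fin_cases j <;>
    simp [thM, TT, Matrix.mul_apply, Matrix.vecMul_diagonal, Fin.sum_univ_succ]

theorem swM_conj (l m : K) : swM K * TT l m * swM K = TT m l := by
  ext i j
  fin_cases i <;> fin_cases j <;>
    simp [swM, TT, Matrix.mul_apply, Matrix.vecMul_diagonal, Fin.sum_univ_succ] <;> ring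

theorem rwM_conj (l m : K) : rwM K * TT l m * rwM K = TT l (-l - m) := by
  ext i j
  fin_cases i <;> fin_cases j <;>
    simp [rwM, TT, Matrix.mul_apply, Matrix.vecMul_diagonal, Fin.sum_univ_succ] <;> ring

theorem cj_neg (l m : K) : Cj (TT l m) (TT (-l) (-m)) :=
  ⟨thM K, thM K, isG_thM, (thM_conj l m).symm⟩

theorem cj_swap (l m : K) : Cj (TT l m) (TT m l) :=
  ⟨swM K, swM K, isG_swM, (swM_conj l m).symm⟩

theorem cj_swap' (l m : K) : Cj (TT l m) (TT l (-l - m)) :=
  ⟨rwM K, rwM K, isG_rwM, (rwM_conj l m).symm⟩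

/-- The case of equal third elementary symmetric functions. -/
theorem weyl_pos (l m l' m' : K) (h1 : l' ^ 2 + l' * m' + m' ^ 2 = l ^ 2 + l * m + m ^ 2)
    (h2 : l' * m' * (l' + m') = l * m * (l + m)) : Cj (TT l m) (TT l' m') := by
  have h : (l' - l) * ((l' - m) * (l' + l + m)) = 0 := by
    linear_combination l' * h1 - h2
  rcases mul_eq_zero.mp h with h | h
  · have e : l' = l := sub_eq_zero.mp h
    subst e
    have h3 : (m' - m) * (m' + l' + m) = 0 := by linear_combination h1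
    rcases mul_eq_zero.mp h3 with h3 | h3
    · rw [sub_eq_zero.mp h3]
      exact Cj.rfl' _
    · have e : m' = -l' - m := by linear_combination h3
      subst e
      exact cj_swap' _ _
  · rcases mul_eq_zero.mp h with h | h
    · have e : l' = m := sub_eq_zero.mp h
      subst e
      have h3 : (m' - l) * (m' + l' + l) = 0 := by linear_combination h1
      rcases mul_eq_zero.mp h3 with h3 | h3
      · rw [sub_eq_zero.mp h3]
        exact cj_swap _ _
      · have e : m' = -l' - l := by linear_combination h3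
        subst e
        exact Cj.trans' (cj_swap _ _) (cj_swap' _ _)
    · have e : l' = -l - m := by linear_combination h
      subst e
      have h3 : (m' - l) * (m' - m) = 0 := by linear_combination h1
      rcases mul_eq_zero.mp h3 with h3 | h3
      · rw [sub_eq_zero.mp h3]
        exact Cj.trans' (cj_swap' _ _) (cj_swap _ _)
      · rw [sub_eq_zero.mp h3]
        have h4 := Cj.trans' (cj_swap l m) (Cj.trans' (cj_swap' m l) (cj_swap _ _))
        have e : -m - l = -l - m := by ring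
        rwa [e] at h4

/-- WEYL: conjugacy in the torus. -/
theorem weyl (K : Type*) [Field K] [CharZero K] : WEYL_S K := by
  intro l m l' m' h1 h2
  have h1' : l' ^ 2 + l' * m' + m' ^ 2 = l ^ 2 + l * m + m ^ 2 := by
    have h2 : (2 : K) ≠ 0 := two_ne_zero
    apply mul_left_cancel₀ h2
    linear_combination -h1
  rcases sq_eq_sq_iff_eq_or_eq_neg.mp h2 with h | h
  · exact weyl_pos l m l' m' h1' h.symm
  · have h3 : Cj (TT l m) (TT (-l') (-m')) := by
      apply weyl_pos
      · linear_combination h1'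
      · linear_combination -h
    have h4 := Cj.trans' h3 (cj_neg _ _)
    rwa [neg_neg, neg_neg] at h4

end Pool.Agent.Lib.MP_d55432_al.G2.H6
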